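import Pool.Agent.QSX.StmtsW

set_option autoImplicit false

/-!
# QSX, row HVB (helper67): the vector of a point is coarsely Lipschitz
-/

namespace Pool.Agent.QSX.H67

open Matrix Finset Pool.Agent.QSX

theorem hvb (hD : DfnStmt) (hP : PlnStmt) : HvbStmt := by
  intro Y E _ _
  have hm0 : (0 : ℝ) < (Y.m : ℝ) + 1 := by positivity
  refine ⟨Real.sqrt ((Y.m : ℝ) + 1), Real.sqrt_pos.mpr hm0, ?_⟩
  intro q q'
  obtain ⟨u, hu⟩ : ∃ u : EuclideanSpace ℝ (Fin Y.m),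
      u = WithLp.toLp 2 (fun i => (q.1.2 : Fin Y.m → ℝ) i - (q'.1.2 : Fin Y.m → ℝ) i) := ⟨_, rfl⟩
  have h1 : ‖hv Y E q - hv Y E q'‖ ^ 2 = ‖u‖ ^ 2 + ‖q.2 - q'.2‖ ^ 2 := by
    rw [WithLp.prod_norm_sq_eq_of_L2, hu]
    rfl
  have h2 : ‖u‖ ^ 2 = ∑ i, |(q.1.2 : Fin Y.m → ℝ) i - (q'.1.2 : Fin Y.m → ℝ) i| ^ 2 := by
    rw [EuclideanSpace.norm_sq_eq, hu]
    rfl
  have hN : 0 ≤ ‖hv Y E q - hv Y E q'‖ := norm_nonneg _
  refine ⟨?_, ?_, ?_⟩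
  · intro i
    refine le_of_pow_le_pow_left₀ two_ne_zero hN ?_
    rw [h1, h2]
    have h3 : |(q.1.2 : Fin Y.m → ℝ) i - (q'.1.2 : Fin Y.m → ℝ) i| ^ 2 ≤
        ∑ i, |(q.1.2 : Fin Y.m → ℝ) i - (q'.1.2 : Fin Y.m → ℝ) i| ^ 2 :=
      Finset.single_le_sum
        (f := fun i => |(q.1.2 : Fin Y.m → ℝ) i - (q'.1.2 : Fin Y.m → ℝ) i| ^ 2)
        (fun j _ => sq_nonneg _) (Finset.mem_univ i)
    have h4 := sq_nonneg ‖q.2 - q'.2‖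
    linarith
  · refine le_of_pow_le_pow_left₀ two_ne_zero hN ?_
    rw [h1]
    have h4 := sq_nonneg ‖u‖
    linarith
  · obtain ⟨d, hd⟩ : ∃ d, d = Y.dist q.1 q'.1 := ⟨_, rfl⟩
    have hcd : ∀ i, |(q.1.2 : Fin Y.m → ℝ) i - (q'.1.2 : Fin Y.m → ℝ) i| ≤ d := by
      intro i
      obtain ⟨r, hr1, hr2⟩ := hD Y q.1 q'.1
      obtain ⟨K, hK, hK2⟩ := hP Y.m
      have h5 := (hK2 (r.1 : Matrix (Fin Y.m) (Fin Y.m) ℝ) (r.2 : Fin Y.m → ℝ)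
        (Y.su _ r.1.2)).1
      have h6 : d = len (ue (r.1 : Matrix (Fin Y.m) (Fin Y.m) ℝ) * ud (r.2 : Fin Y.m → ℝ)) := by
        rw [hd]
        change len ((Y.mat q.1)⁻¹ * Y.mat q'.1) = _
        rw [hr1]
        rfl
      have h7 : ‖(r.2 : Fin Y.m → ℝ) i‖ ≤ ‖(r.2 : Fin Y.m → ℝ)‖ := norm_le_pi_norm _ i
      rw [h6]
      rw [Real.norm_eq_abs, hr2 i] at h7
      rw [abs_sub_comm]
      exact h7.trans h5
    have hd0 : ‖u‖ ^ 2 ≤ Y.m * d ^ 2 := by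
      rw [h2]
      calc ∑ i, |(q.1.2 : Fin Y.m → ℝ) i - (q'.1.2 : Fin Y.m → ℝ) i| ^ 2
          ≤ ∑ _i : Fin Y.m, d ^ 2 := by
            apply Finset.sum_le_sum
            intro i _
            exact pow_le_pow_left₀ (abs_nonneg _) (hcd i) 2
        _ = Y.m * d ^ 2 := by simp
    have hpd : pdist Y E q q' = Real.sqrt (d ^ 2 + ‖q.2 - q'.2‖ ^ 2) := by
      rw [hd]; rfl
    have hs : 0 ≤ d ^ 2 + ‖q.2 - q'.2‖ ^ 2 := by positivity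
    rw [hpd]
    refine le_of_pow_le_pow_left₀ two_ne_zero
      (mul_nonneg (Real.sqrt_nonneg _) (Real.sqrt_nonneg _)) ?_
    rw [h1, mul_pow, Real.sq_sqrt hm0.le, Real.sq_sqrt hs]
    have h8 := sq_nonneg ‖q.2 - q'.2‖
    have h9 := sq_nonneg d
    have h10 : (0 : ℝ) ≤ Y.m := by positivity
    nlinarith [mul_nonneg h10 h8]

end Pool.Agent.QSX.H67
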