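import Pool.Agent.QSX.StmtsA

set_option autoImplicit false

/-!
# QSX, row SPT (helper67): unitriangular matrices supported on a transitive relation
-/

namespace Pool.Agent.QSX.H67

open Matrix Finset Pool.Agent.QSX

section sp

variable {R : Type} [CommRing R] {m : ℕ}

/-- strictly upper triangular, supported on `r` -/
def SA (r : Fin m → Fin m → Prop) (x : Matrix (Fin m) (Fin m) R) : Prop :=
  SU x ∧ ∀ i l, i < l → x i l ≠ 0 → r i l

theorem sp_iff (r : Fin m → Fin m → Prop) (g : Matrix (Fin m) (Fin m) R) :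
    Sp r g ↔ SA r (g - 1) := by
  unfold Sp SA UU
  apply and_congr_right
  intro _
  apply forall_congr'
  intro i
  apply forall_congr'
  intro l
  apply forall_congr'
  intro h
  have e : (g - 1) i l = g i l := by
    rw [Matrix.sub_apply, Matrix.one_apply_ne h.ne, sub_zero]
  rw [e]

theorem SA.zero (r : Fin m → Fin m → Prop) : SA r (0 : Matrix (Fin m) (Fin m) R) :=
  ⟨SU.zero, fun _ _ _ h => absurd rfl h⟩

theorem SA.add {r : Fin m → Fin m → Prop} {x y : Matrix (Fin m) (Fin m) R} (hx : SA r x)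
    (hy : SA r y) : SA r (x + y) := by
  refine ⟨hx.1.add hy.1, ?_⟩
  intro i l hil h
  by_cases h1 : x i l = 0
  · refine hy.2 i l hil ?_
    intro h2
    apply h
    rw [Matrix.add_apply, h1, h2, add_zero]
  · exact hx.2 i l hil h1

theorem SA.smul {r : Fin m → Fin m → Prop} {S : Type} [SMulZeroClass S R]
    {x : Matrix (Fin m) (Fin m) R} (hx : SA r x) (c : S) : SA r (c • x) := by
  refine ⟨hx.1.smul c, ?_⟩
  intro i l hil h
  refine hx.2 i l hil ?_
  intro h1
  apply h
  rw [Matrix.smul_apply, h1, smul_zero]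

theorem SA.neg {r : Fin m → Fin m → Prop} {x : Matrix (Fin m) (Fin m) R} (hx : SA r x) :
    SA r (-x) := by
  refine ⟨hx.1.neg, ?_⟩
  intro i l hil h
  refine hx.2 i l hil ?_
  intro h1
  apply h
  rw [Matrix.neg_apply, h1, neg_zero]

theorem SA.mul {r : Fin m → Fin m → Prop}
    (hr : ∀ i j k, i < j → j < k → r i j → r j k → r i k)
    {x y : Matrix (Fin m) (Fin m) R} (hx : SA r x) (hy : SA r y) : SA r (x * y) := by
  refine ⟨hx.1.mul hy.1, ?_⟩
  intro i l _ h
  rw [Matrix.mul_apply] at h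
  obtain ⟨k, _, hk⟩ := Finset.exists_ne_zero_of_sum_ne_zero h
  have h1 : x i k ≠ 0 := left_ne_zero_of_mul hk
  have h2 : y k l ≠ 0 := right_ne_zero_of_mul hk
  have h3 : i < k := by
    by_contra h4
    exact h1 (hx.1 i k (not_lt.mp h4))
  have h5 : k < l := by
    by_contra h4
    exact h2 (hy.1 k l (not_lt.mp h4))
  exact hr i k l h3 h5 (hx.2 i k h3 h1) (hy.2 k l h5 h2)

theorem SA.pow {r : Fin m → Fin m → Prop}
    (hr : ∀ i j k, i < j → j < k → r i j → r j k → r i k)
    {x : Matrix (Fin m) (Fin m) R} (hx : SA r x) (k : ℕ) : SA r (x ^ (k + 1)) := by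
  induction k with
  | zero => rw [zero_add, pow_one]; exact hx
  | succ k ih =>
    rw [pow_succ]
    exact ih.mul hr hx

theorem SA.sum {r : Fin m → Fin m → Prop} (n : ℕ) (f : ℕ → Matrix (Fin m) (Fin m) R)
    (hf : ∀ k, SA r (f k)) : SA r (∑ k ∈ range n, f k) := by
  induction n with
  | zero => rw [range_zero, sum_empty]; exact SA.zero r
  | succ n ih =>
    rw [sum_range_succ]
    exact ih.add (hf n)

end sp

theorem spt : SptStmt := by
  intro R _ _ m r hr
  refine ⟨⟨{ carrier := {g | Sp r (g : Matrix (Fin m) (Fin m) R)}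
             mul_mem' := ?_
             one_mem' := ?_
             inv_mem' := ?_ }, fun g => Iff.rfl⟩, ?_, ?_⟩
  · intro g h hg hh
    change Sp r ((g * h : (Matrix (Fin m) (Fin m) R)ˣ) : Matrix (Fin m) (Fin m) R)
    have hg' := (sp_iff r _).mp hg
    have hh' := (sp_iff r _).mp hh
    rw [sp_iff, Units.val_mul]
    have e : (g : Matrix (Fin m) (Fin m) R) * (h : Matrix (Fin m) (Fin m) R) - 1 =
        ((g : Matrix (Fin m) (Fin m) R) - 1) + ((h : Matrix (Fin m) (Fin m) R) - 1) +
        ((g : Matrix (Fin m) (Fin m) R) - 1) * ((h : Matrix (Fin m) (Fin m) R) - 1) := by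
      noncomm_ring
    rw [e]
    exact (hg'.add hh').add (hg'.mul hr hh')
  · change Sp r ((1 : (Matrix (Fin m) (Fin m) R)ˣ) : Matrix (Fin m) (Fin m) R)
    rw [sp_iff, Units.val_one, sub_self]
    exact SA.zero r
  · intro g hg
    change Sp r ((g⁻¹ : (Matrix (Fin m) (Fin m) R)ˣ) : Matrix (Fin m) (Fin m) R)
    have hg' := (sp_iff r _).mp hg
    obtain ⟨y, hy⟩ : ∃ y : Matrix (Fin m) (Fin m) R, y = 1 - (g : Matrix (Fin m) (Fin m) R) :=
      ⟨_, rfl⟩
    have hyA : SA r y := by
      rw [hy, ← neg_sub]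
      exact hg'.neg
    have e1 : (g : Matrix (Fin m) (Fin m) R) * ∑ k ∈ range (m + 1), y ^ k = 1 := by
      have h1 : (g : Matrix (Fin m) (Fin m) R) = 1 - y := by rw [hy]; abel
      rw [h1, mul_neg_geom_sum, hyA.1.pow_eq_zero (Nat.le_succ m), sub_zero]
    have e2 : ((g⁻¹ : (Matrix (Fin m) (Fin m) R)ˣ) : Matrix (Fin m) (Fin m) R) =
        ∑ k ∈ range (m + 1), y ^ k := by
      rw [Units.inv_eq_of_mul_eq_one_right e1]
    rw [sp_iff, e2, sum_range_succ', pow_zero, add_sub_cancel_right]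
    exact SA.sum m _ fun k => hyA.pow hr k
  · intro x hx hx2
    have hxA : SA r x := ⟨hx, hx2⟩
    rw [sp_iff, mexp, sum_range_succ']
    have e : ((Nat.factorial 0 : ℝ)⁻¹) • x ^ 0 = 1 := by
      rw [Nat.factorial_zero, Nat.cast_one, inv_one, one_smul, pow_zero]
    rw [e, add_sub_cancel_right]
    exact SA.sum m _ fun k => (hxA.pow hr k).smul _
  · intro g hg
    have hg' := (sp_iff r _).mp hg
    have e : mlog g = ∑ k ∈ range m, ((-1 : ℝ) ^ (k + 1 + 1) / ((k + 1 : ℕ) : ℝ)) •
        (g - 1) ^ (k + 1) := by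
      rw [mlog, sum_range_succ', Nat.cast_zero, div_zero, zero_smul, add_zero]
    have h : SA r (mlog g) := by
      rw [e]
      exact SA.sum m _ fun k => (hg'.pow hr k).smul _
    exact h

end Pool.Agent.QSX.H67
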